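import Pool.Agent.Y882.MG.Quad2

/-! Almost prime values of `n ^ 2 + a` in short intervals, uniformly in `a ≤ (log X) ^ B`. -/

set_option autoImplicit false

namespace Pool.Agent.K1H50.SQ3

open Finset Polynomial Filter
open Pool.Agent.W23.DC
open Pool.Agent.Y882.PX
open Pool.Agent.Y882.KW
open Pool.Agent.Y882.SI
open Pool.Agent.Y882.MG
open Pool.Agent.H300R2.EC (Sd)
open Pool.Agent.W378.DC.TMP

theorem dyadU (W : ℕ) : ∃ P0 : ℕ, 2 ≤ P0 ∧ ∀ k P Q : ℕ, P0 ≤ P → P ≤ Q →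
    Q ≤ 2 ^ k * P → ∀ D : ℤ, ¬ IsSquare D → 4 * |(D : ℝ)| ≤ Real.log P ^ W →
    |Sd D P Q| ≤ k / Real.log P ^ 2 := by
  obtain ⟨P1, h1⟩ := Pool.Agent.H364R2.EC.sw_tail 2 W
  refine ⟨max P1 2, le_max_right _ _, ?_⟩
  intro k
  induction k with
  | zero =>
    intro P Q hP hPQ hQ D hD _
    rw [pow_zero, one_mul] at hQ
    have : P = Q := by omega
    subst this
    unfold Sd
    simp
  | succ k ih =>
    intro P Q hP hPQ hQ D hD h3
    have hP1 : P1 ≤ P := (le_max_left _ _).trans hP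
    have hP3 : 2 ≤ P := (le_max_right _ _).trans hP
    have hP3r : (2 : ℝ) ≤ P := by exact_mod_cast hP3
    have hl : 0 < Real.log P := Real.log_pos (by linarith)
    rcases le_or_gt Q (2 * P) with h | h
    · refine (h1 P hP1 Q hPQ h D hD h3).trans ?_
      push_cast
      apply div_le_div_of_nonneg_right _ (by positivity)
      have : (0 : ℝ) ≤ k := Nat.cast_nonneg _
      linarith
    · have h4 := h1 P hP1 (2 * P) (by omega) le_rfl D hD h3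
      have h6 : Real.log P ≤ Real.log ((2 * P : ℕ) : ℝ) := by
        apply Real.log_le_log (by linarith)
        push_cast
        linarith
      have h5 := ih (2 * P) Q (by omega) h.le (by
        calc Q ≤ 2 ^ (k + 1) * P := hQ
          _ = 2 ^ k * (2 * P) := by ring) D hD (h3.trans (pow_le_pow_left₀ hl.le h6 W))
      rw [Sd_split D P (2 * P) Q (by omega) h.le]
      calc |Sd D P (2 * P) + Sd D (2 * P) Q| ≤ |Sd D P (2 * P)| + |Sd D (2 * P) Q| := abs_add_le _ _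
        _ ≤ 1 / Real.log P ^ 2 + k / Real.log ((2 * P : ℕ) : ℝ) ^ 2 := add_le_add h4 h5
        _ ≤ 1 / Real.log P ^ 2 + k / Real.log P ^ 2 := by gcongr
        _ = _ := by
            push_cast
            ring

/-- the densities of `X ^ 2 + a` are regular -/
theorem mer_unif (B' : ℕ) (ε₁ υ η : ℝ) (hε : 0 < ε₁) (hυ : υ ≤ 1)
    (hη : 0 < η) : ∃ Y0 : ℕ, ∀ Y : ℕ, Y0 ≤ Y → ∀ a : ℤ, ¬ IsSquare (-a) →
      |(a : ℝ)| ≤ Real.log Y ^ B' →
      Mer (pr Y ε₁ υ) (tt Y) (fun p => (ro (QF a) 0 p : ℝ) / p) ε₁ υ η := by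
  classical
  obtain ⟨N1, hN1⟩ := Pool.Agent.W378.DC.MP ε₁ (η / 3) hε (by linarith)
  obtain ⟨P0, hP02, hP0⟩ := dyadU (B' + 1)
  have ev1 : ∀ᶠ Y : ℕ in atTop, (max (P0 : ℝ) (3 / η)) + 3 ≤ (Y : ℝ) ^ ε₁ :=
    ((tendsto_rpow_atTop hε).comp tendsto_natCast_atTop_atTop).eventually_ge_atTop _
  have ev5 : ∀ᶠ Y : ℕ in atTop, 4 / (ε₁ / 2) ^ (B' + 1) ≤ Real.log Y :=
    (Real.tendsto_log_atTop.comp tendsto_natCast_atTop_atTop).eventually_ge_atTop _
  have ev2 : ∀ᶠ Y : ℕ in atTop, 36 / (ε₁ ^ 2 * η) + 3 ≤ Real.log Y :=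
    (Real.tendsto_log_atTop.comp tendsto_natCast_atTop_atTop).eventually_ge_atTop _
  have ev3 : ∀ᶠ Y : ℕ in atTop, 2 ≤ (Y : ℝ) ^ (ε₁ / 2) :=
    ((tendsto_rpow_atTop (by linarith)).comp tendsto_natCast_atTop_atTop).eventually_ge_atTop _
  obtain ⟨Y1, hY1⟩ := eventually_atTop.1 (ev1.and (ev2.and (ev3.and (ev5.and (eventually_ge_atTop 3)))))
  refine ⟨max N1 Y1, fun Y hY a ha haB => ?_⟩
  obtain ⟨e1, e2, e3, e6, e4⟩ := hY1 Y ((le_max_right _ _).trans hY)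
  have hYN1 : N1 ≤ Y := (le_max_left _ _).trans hY
  have hYr : (3 : ℝ) ≤ Y := by exact_mod_cast e4
  have hY0 : (0 : ℝ) < Y := by linarith
  have hY1r : (1 : ℝ) < Y := by linarith
  intro u v hu huv hv
  have hv1 : v ≤ 1 := hv.trans hυ
  have hset : (pr Y ε₁ υ).filter (fun p => u ≤ tt Y p ∧ tt Y p < v) = pr Y u v := by
    ext p
    unfold pr
    rw [mem_filter, mem_filter, mem_filter]
    constructor
    · rintro ⟨⟨h1, h2, h3, h4⟩, h5, h6⟩
      exact ⟨h1, h2, h5, h6⟩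
    · rintro ⟨h1, h2, h5, h6⟩
      exact ⟨⟨h1, h2, hu.trans h5, h6.trans_le hv⟩, h5, h6⟩
  rw [hset]
  have m1 := hN1 Y hYN1 u v hu huv hv1
  rw [pr_eq (by omega) hv1] at m1 ⊢
  have hmono : (Y : ℝ) ^ u ≤ (Y : ℝ) ^ v := Real.rpow_le_rpow_of_exponent_le hY1r.le huv
  have hu' : (Y : ℝ) ^ ε₁ ≤ (Y : ℝ) ^ u := Real.rpow_le_rpow_of_exponent_le hY1r.le hu
  have hYv : (Y : ℝ) ^ v ≤ Y := by
    calc (Y : ℝ) ^ v ≤ (Y : ℝ) ^ (1 : ℝ) := Real.rpow_le_rpow_of_exponent_le hY1r.le hv1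
      _ = Y := Real.rpow_one _
  have hAB : ⌈(Y : ℝ) ^ u⌉₊ - 1 ≤ ⌈(Y : ℝ) ^ v⌉₊ - 1 := Nat.sub_le_sub_right (Nat.ceil_mono hmono) 1
  have hBY : ⌈(Y : ℝ) ^ v⌉₊ - 1 ≤ Y := by
    have : ⌈(Y : ℝ) ^ v⌉₊ ≤ Y := Nat.ceil_le.2 hYv
    omega
  have hAl : (Y : ℝ) ^ ε₁ - 1 ≤ ((⌈(Y : ℝ) ^ u⌉₊ - 1 : ℕ) : ℝ) := by
    have h1 := Nat.le_ceil ((Y : ℝ) ^ u)
    have h2 : 1 ≤ ⌈(Y : ℝ) ^ u⌉₊ := Nat.ceil_pos.2 (by positivity)
    rw [Nat.cast_sub h2]
    push_cast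
    linarith
  set A := ⌈(Y : ℝ) ^ u⌉₊ - 1 with hA
  set B := ⌈(Y : ℝ) ^ v⌉₊ - 1 with hB
  have hAmax : max (P0 : ℝ) (3 / η) + 2 ≤ A := by linarith
  have hAP : P0 ≤ A := by
    have : (P0 : ℝ) ≤ A := by linarith [le_max_left (P0 : ℝ) (3 / η)]
    exact_mod_cast this
  have hAη : 3 / η ≤ A := by linarith [le_max_right (P0 : ℝ) (3 / η)]
  have hA2 : 2 ≤ A := hP02.trans hAP
  have hA2r : (2 : ℝ) ≤ A := by exact_mod_cast hA2
  have m2 := shift_prime (A := A) (B := B) (by omega) hAB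
  rw [Finset.sum_sub_distrib] at m2
  have hne2 : ∀ p ∈ (Ioc A B).filter Nat.Prime, p ≠ 2 := by
    intro p hp
    rw [mem_filter, mem_Ioc] at hp
    omega
  have hsum : ∑ p ∈ (Ioc A B).filter Nat.Prime, (ro (QF a) 0 p : ℝ) / p =
      ∑ p ∈ (Ioc A B).filter Nat.Prime, 1 / (p : ℝ) + Sd (-a) A B := by
    have h1 : (Ioc A B).filter (fun p : ℕ => p.Prime ∧ p ≠ 2) = (Ioc A B).filter Nat.Prime := by
      apply filter_congr
      intro p hp
      rw [mem_Ioc] at hp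
      constructor
      · exact fun h => h.1
      · exact fun h => ⟨h, by omega⟩
    unfold Sd
    rw [h1, ← sum_add_distrib]
    apply sum_congr rfl
    intro p hp
    have h2 := ro_quad a p (mem_filter.1 hp).2 (hne2 p hp)
    have h3 : (ro (QF a) 0 p : ℝ) = 1 + (jacobiSym (-a) p : ℝ) := by exact_mod_cast h2
    rw [h3]
    ring
  rw [hsum]
  -- dyadic
  have hk : B ≤ 2 ^ (Nat.clog 2 Y) * A := by
    calc B ≤ Y := hBY
      _ ≤ 2 ^ (Nat.clog 2 Y) := Nat.le_pow_clog (by norm_num) Y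
      _ ≤ 2 ^ (Nat.clog 2 Y) * A := Nat.le_mul_of_pos_right _ (by omega)
  have hlogA : ε₁ / 2 * Real.log Y ≤ Real.log A := by
    rw [← Real.log_rpow hY0]
    apply Real.log_le_log (by positivity)
    have h1 : (Y : ℝ) ^ ε₁ = (Y : ℝ) ^ (ε₁ / 2) * (Y : ℝ) ^ (ε₁ / 2) := by
      rw [← Real.rpow_add hY0]
      congr 1
      ring
    nlinarith
  have haA : 4 * |(((-a : ℤ)) : ℝ)| ≤ Real.log A ^ (B' + 1) := by
    rw [div_le_iff₀ (by positivity)] at e6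
    have g1 : (0 : ℝ) < Real.log Y := Real.log_pos hY1r
    have g2 : |(((-a : ℤ)) : ℝ)| = |(a : ℝ)| := by push_cast; rw [abs_neg]
    rw [g2]
    calc 4 * |(a : ℝ)| ≤ 4 * Real.log Y ^ B' := by linarith
      _ ≤ (Real.log Y * (ε₁ / 2) ^ (B' + 1)) * Real.log Y ^ B' :=
          mul_le_mul_of_nonneg_right e6 (by positivity)
      _ = (ε₁ / 2 * Real.log Y) ^ (B' + 1) := by ring
      _ ≤ _ := pow_le_pow_left₀ (by positivity) hlogA _
  have m3 := hP0 (Nat.clog 2 Y) A B hAP hAB hk (-a) ha haA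
  have hclog : (Nat.clog 2 Y : ℝ) ≤ 3 * Real.log Y := by
    have h1 : 2 ^ (Nat.clog 2 Y - 1) < Y :=
      Nat.pow_pred_clog_lt_self (by norm_num) (by omega)
    have h2 : ((Nat.clog 2 Y - 1 : ℕ) : ℝ) * Real.log 2 ≤ Real.log Y := by
      rw [← Real.log_pow]
      apply Real.log_le_log (by positivity)
      exact_mod_cast h1.le
    have h3 : (Nat.clog 2 Y : ℝ) ≤ ((Nat.clog 2 Y - 1 : ℕ) : ℝ) + 1 := by
      have : Nat.clog 2 Y ≤ (Nat.clog 2 Y - 1) + 1 := by omega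
      exact_mod_cast this
    have h4 : 0.69 < Real.log 2 := by linarith [Real.log_two_gt_d9]
    have h5 : ((Nat.clog 2 Y - 1 : ℕ) : ℝ) * 0.69 ≤ ((Nat.clog 2 Y - 1 : ℕ) : ℝ) * Real.log 2 :=
      mul_le_mul_of_nonneg_left h4.le (Nat.cast_nonneg _)
    have h6 : 3 ≤ Real.log Y := by
      have : 0 < 36 / (ε₁ ^ 2 * η) := by positivity
      linarith
    linarith
  have hlY : 0 < Real.log Y := Real.log_pos hY1r
  have hlA : 0 < Real.log A := lt_of_lt_of_le (by positivity) hlogA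
  have m4 : |Sd (-a) A B| ≤ η / 3 := by
    refine m3.trans ?_
    rw [div_le_iff₀ (by positivity)]
    have h1 : (ε₁ / 2 * Real.log Y) ^ 2 ≤ Real.log A ^ 2 :=
      pow_le_pow_left₀ (by positivity) hlogA 2
    have h2 : 36 / (ε₁ ^ 2 * η) ≤ Real.log Y := by linarith
    rw [div_le_iff₀ (by positivity)] at h2
    calc (Nat.clog 2 Y : ℝ) ≤ 3 * Real.log Y := hclog
      _ = 36 * Real.log Y / 12 := by ring
      _ ≤ (Real.log Y * (ε₁ ^ 2 * η)) * Real.log Y / 12 := by gcongr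
      _ = η / 3 * (ε₁ / 2 * Real.log Y) ^ 2 := by ring
      _ ≤ _ := by gcongr
  have m5 : 1 / (A : ℝ) ≤ η / 3 := by
    rw [div_le_iff₀ (by linarith)]
    rw [div_le_iff₀ hη] at hAη
    linarith
  obtain ⟨a1, a2⟩ := abs_le.1 m1
  obtain ⟨a3, a4⟩ := abs_le.1 m4
  rw [abs_le]
  constructor <;> linarith [m2.1, m2.2]

theorem evlog (B : ℕ) (C s : ℝ) (hs : 0 < s) : ∀ᶠ Y : ℕ in atTop,
    Real.log Y ^ B + C ≤ (Y : ℝ) ^ s := by
  have h1 : Tendsto (fun x : ℝ => Real.log x ^ ((B : ℕ) : ℝ) / x ^ s) atTop (nhds 0) := by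
    have := isLittleO_log_rpow_rpow_atTop (((B : ℕ) : ℝ)) hs
    exact this.tendsto_div_nhds_zero
  have h2 := h1.eventually_le_const (show (0 : ℝ) < 1 / 2 by norm_num)
  have h3 := tendsto_natCast_atTop_atTop.eventually (h2.and (eventually_gt_atTop (0 : ℝ)))
  have h4 : ∀ᶠ Y : ℕ in atTop, (2 * C : ℝ) ≤ (Y : ℝ) ^ s :=
    ((tendsto_rpow_atTop hs).comp tendsto_natCast_atTop_atTop).eventually_ge_atTop _
  filter_upwards [h3, h4] with X hX hX4
  obtain ⟨h5, h6⟩ := hX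
  have h7 : (0 : ℝ) < (X : ℝ) ^ s := by positivity
  rw [div_le_iff₀ h7, Real.rpow_natCast] at h5
  linarith

open Classical in
/-- few short windows with few values with at most `r` prime factors, uniformly in `a` -/
theorem finU (B : ℕ) (c : ℝ) (hc : 0 < c) (r : ℕ) (τ ζ υ lam S : ℝ) (hζ : 0 < ζ) (h2 : 2 * ζ < τ)
    (h4 : τ ≤ 4 * ζ) (hτ : τ < 1) (hτ2 : 1 / 2 ≤ τ) (hζυ : ζ ≤ υ) (hυτ : υ < τ)
    (hlam : 0 < lam)
    (hJ0 : ∫ x in ζ..υ, (lam - lam / υ * x) / (τ - x) / x < Real.log (τ / ζ - 1) / τ) (hS : 2 < S)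
    (hr : 1 / lam + S / υ ≤ r + 1) (h ε : ℝ) (hh : 0 < h) (hh1 : h ≤ τ) (hε : 0 < ε) :
    ∃ δ : ℝ, 0 < δ ∧ ∃ X0 : ℕ, ∀ X : ℕ, X0 ≤ X → ∀ a : ℤ, ¬ IsSquare (-a) →
      |(a : ℝ)| ≤ Real.log X ^ B → c / Real.log X ≤ lo (QF a) X →
      (((Icc 1 (2 * X)).filter (fun N => ((gset a r ((X : ℝ) ^ ζ) N ⌊(X : ℝ) ^ h⌋₊).card : ℝ) <
        δ * (X : ℝ) ^ h / Real.log X)).card : ℝ) ≤
      (X : ℝ) ^ (2 * τ - h + ε) := by
  have hυ0 : 0 < υ := by linarith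
  have hυ1 : υ ≤ 1 := by linarith
  obtain ⟨δ, ε₁, η, hδ, hε₁, hε₁ζ, hη, Y1, HE⟩ := engS 2 τ ζ υ lam (lam / υ) (ε / 2) c
    hζ h2 h4 hτ hζυ hυτ hlam.le (by positivity) (by rw [div_mul_cancel₀ _ hυ0.ne']) hJ0
    (by linarith) hc
  obtain ⟨Y2, HM⟩ := mer_unif B ε₁ υ η hε₁ hυ1 hη
  have ev1 : ∀ᶠ Y : ℕ in atTop, (6 : ℝ) ≤ (Y : ℝ) ^ (ε / 2) :=
    ((tendsto_rpow_atTop (by linarith)).comp tendsto_natCast_atTop_atTop).eventually_ge_atTop _
  have ev2 : ∀ᶠ Y : ℕ in atTop, (2 : ℝ) ≤ (Y : ℝ) ^ h :=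
    ((tendsto_rpow_atTop hh).comp tendsto_natCast_atTop_atTop).eventually_ge_atTop _
  have ev3 := evlog B 4 ζ hζ
  have ev4 := evlog B 9 (S - 2) (by linarith)
  obtain ⟨Y4, hY4⟩ := eventually_atTop.1
    (ev1.and (ev2.and (ev3.and (ev4.and (eventually_ge_atTop 3)))))
  refine ⟨δ / 2, by positivity, max (max Y1 Y2) Y4, ?_⟩
  intro X hX a ha haB haL
  obtain ⟨e1, e2, e3', e4', e5⟩ := hY4 X ((le_max_right _ _).trans hX)
  have ha0 : a ≠ 0 := by
    rintro rfl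
    exact ha ⟨0, by simp⟩
  have e3 : (a.natAbs : ℝ) + 4 ≤ (X : ℝ) ^ ζ := by
    have g : (a.natAbs : ℝ) = |(a : ℝ)| := by
      rw [Nat.cast_natAbs]
      push_cast
      rfl
    rw [g]
    linarith
  have e4 : 9 + |(a : ℝ)| ≤ (X : ℝ) ^ (S - 2) := by linarith
  have hX1 : Y1 ≤ X := ((le_max_left _ _).trans (le_max_left _ _)).trans hX
  have hX2 : Y2 ≤ X := ((le_max_right _ _).trans (le_max_left _ _)).trans hX
  have hXr : (3 : ℝ) ≤ X := by exact_mod_cast e5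
  have hX0 : (0 : ℝ) < X := by linarith
  have hX1r : (1 : ℝ) ≤ X := by linarith
  have hlX : 0 < Real.log X := Real.log_pos (by linarith)
  set H : ℕ := ⌊(X : ℝ) ^ h⌋₊ with hH
  have hHle : (H : ℝ) ≤ (X : ℝ) ^ h := Nat.floor_le (by positivity)
  have hHge : (X : ℝ) ^ h / 2 ≤ H := by
    have := Nat.lt_floor_add_one ((X : ℝ) ^ h)
    rw [← hH] at this
    linarith
  have hH1 : 1 ≤ H := by
    rw [hH]
    exact Nat.le_floor (by push_cast; linarith)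
  have hHr : (0 : ℝ) < H := by exact_mod_cast hH1
  have hHX : (H : ℝ) ≤ X := by
    refine hHle.trans ?_
    calc (X : ℝ) ^ h ≤ (X : ℝ) ^ (1 : ℝ) := Real.rpow_le_rpow_of_exponent_le hX1r (by linarith)
      _ = X := Real.rpow_one _
  have hHXn : H ≤ X := by exact_mod_cast hHX
  have hA := HE X hX1 (QF a) (2 * X) H (fun p hp => ro_quad_le a p hp) (by
      intro q hq hqX N H'
      have u1 : (a.natAbs : ℝ) + 4 ≤ q := e3.trans hqX
      have u2 : a.natAbs + 4 ≤ q := by exact_mod_cast u1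
      exact sq_countS a ha0 q hq (by omega) (by omega) N H') (by omega)
    (by
      refine hHle.trans (Real.rpow_le_rpow_of_exponent_le hX1r ?_)
      linarith) haL (HM X hX2 a ha haB)
  have hsub : (Icc 1 (2 * X)).filter (fun N => ((gset a r ((X : ℝ) ^ ζ) N H).card : ℝ) <
        δ / 2 * (X : ℝ) ^ h / Real.log X) ⊆
      (Icc 1 (2 * X)).filter (fun N => ((posS (QF a) X ζ υ lam (lam / υ) H N).card : ℝ) <
          δ * H / Real.log X) := by
    intro N hN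
    rw [mem_filter] at hN ⊢
    refine ⟨hN.1, ?_⟩
    have hNX : N ≤ 2 * X := (mem_Icc.1 hN.1).2
    have g3 : (posS (QF a) X ζ υ lam (lam / υ) H N).card ≤ (gset a r ((X : ℝ) ^ ζ) N H).card := by
      apply card_le_card_of_injOn (fun j => N + j)
      · intro j hj
        show N + j ∈ _
        unfold posS pos at hj
        rw [mem_coe, mem_filter, mem_filter, mem_Icc] at hj
        obtain ⟨⟨⟨hj3, hj4⟩, hj5⟩, hj6⟩ := hj
        rw [QF_eval] at hj5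
        unfold gset
        rw [mem_coe, mem_filter, mem_Ioc]
        refine ⟨⟨by omega, by omega⟩, ?_⟩
        have hne : (((N + j : ℕ) : ℤ) ^ 2 + a) ≠ 0 := by
          intro h0
          apply ha
          exact ⟨((N + j : ℕ) : ℤ), by linarith⟩
        have hsize : ((((N + j : ℕ) : ℤ) ^ 2 + a).natAbs : ℝ) ≤ (X : ℝ) ^ S := by
          have u1 : ((((N + j : ℕ) : ℤ) ^ 2 + a).natAbs : ℝ) = |(((N + j : ℕ) : ℝ)) ^ 2 + a| := by
            rw [Nat.cast_natAbs]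
            push_cast
            rfl
          rw [u1]
          have u2 : (((N + j : ℕ) : ℝ)) ≤ 3 * X := by
            have : N + j ≤ 3 * X := by omega
            exact_mod_cast this
          have u3 : (((N + j : ℕ) : ℝ)) ^ 2 ≤ (3 * X) ^ 2 := pow_le_pow_left₀ (Nat.cast_nonneg _) u2 2
          have u4 : (1 : ℝ) ≤ (X : ℝ) ^ 2 := by nlinarith
          have u5 := abs_nonneg (a : ℝ)
          calc |(((N + j : ℕ) : ℝ)) ^ 2 + a| ≤ |(((N + j : ℕ) : ℝ)) ^ 2| + |(a : ℝ)| := abs_add_le _ _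
            _ = (((N + j : ℕ) : ℝ)) ^ 2 + |(a : ℝ)| := by rw [abs_of_nonneg (by positivity)]
            _ ≤ (9 + |(a : ℝ)|) * (X : ℝ) ^ 2 := by nlinarith
            _ ≤ (X : ℝ) ^ (S - 2) * (X : ℝ) ^ 2 := mul_le_mul_of_nonneg_right e4 (by positivity)
            _ = (X : ℝ) ^ S := by
                rw [← Real.rpow_natCast (X : ℝ) 2, ← Real.rpow_add hX0]
                congr 1
                push_cast
                ring
        have hres := almost X (by omega) ζ υ lam S r hζυ hυ0 hυ1 hlam hr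
          (((N + j : ℕ) : ℤ) ^ 2 + a).natAbs (Int.natAbs_ne_zero.2 hne) hsize hj5 (by
            intro q hq hqd
            apply hj6 q hq
            rw [QF_eval]
            exact Int.natCast_dvd.2 hqd)
        exact ⟨hres.1, fun p hp hpd => hres.2 p hp (Int.natCast_dvd.1 hpd)⟩
      · intro x _ y _ hxy
        simpa using hxy
    have g3r : ((posS (QF a) X ζ υ lam (lam / υ) H N).card : ℝ) ≤
        ((gset a r ((X : ℝ) ^ ζ) N H).card : ℝ) := by exact_mod_cast g3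
    refine g3r.trans_lt (hN.2.trans_le ?_)
    apply div_le_div_of_nonneg_right _ hlX.le
    calc δ / 2 * (X : ℝ) ^ h = δ * ((X : ℝ) ^ h / 2) := by ring
      _ ≤ δ * H := mul_le_mul_of_nonneg_left hHge hδ.le
  have hXh0 : (0 : ℝ) < (X : ℝ) ^ h := by positivity
  calc (((Icc 1 (2 * X)).filter (fun N => ((gset a r ((X : ℝ) ^ ζ) N H).card : ℝ) <
        δ / 2 * (X : ℝ) ^ h / Real.log X)).card : ℝ) ≤ _ := by exact_mod_cast card_le_card hsub
    _ ≤ (((2 * X : ℕ) : ℝ) + (X : ℝ) ^ (2 * τ)) / H * (X : ℝ) ^ (ε / 2) := hA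
    _ ≤ (3 * (X : ℝ) ^ (2 * τ)) / ((X : ℝ) ^ h / 2) * (X : ℝ) ^ (ε / 2) := by
        have u1 : (X : ℝ) ≤ (X : ℝ) ^ (2 * τ) := by
          calc (X : ℝ) = (X : ℝ) ^ (1 : ℝ) := (Real.rpow_one _).symm
            _ ≤ _ := Real.rpow_le_rpow_of_exponent_le hX1r (by linarith)
        apply mul_le_mul_of_nonneg_right _ (by positivity)
        apply div_le_div₀ (by positivity) (by push_cast; linarith) (by positivity) hHge
    _ = 6 * ((X : ℝ) ^ (2 * τ) / (X : ℝ) ^ h) * (X : ℝ) ^ (ε / 2) := by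
        field_simp
        norm_num
    _ ≤ (X : ℝ) ^ (ε / 2) * ((X : ℝ) ^ (2 * τ) / (X : ℝ) ^ h) * (X : ℝ) ^ (ε / 2) := by
        gcongr
    _ = _ := by
        rw [← Real.rpow_sub hX0, ← Real.rpow_add hX0, ← Real.rpow_add hX0]
        congr 1
        ring

end Pool.Agent.K1H50.SQ3
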