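import Pool.Agent.K1H50.SQ3.U1
import Pool.Agent.Y862.SQ.Main1

/-! Good shifts and the second moment of the rough numbers. -/

set_option autoImplicit false

namespace Pool.Agent.K1H50.SQ3

open Finset Polynomial Filter
open Pool.Agent.Y882.PX
open Pool.Agent.Y882.SI
open Pool.Agent.Y862.SQ (S_FM S_MOM Ns V1 V1t Ff leg t_MERT t_MOM)

theorem t_FM' : S_FM :=
  Pool.Agent.Y117.SQ.t_FM t_MERT (Pool.Agent.Y286.SQ.t_F1 (Pool.Agent.Y756.SQ.t_BR2 t_MERT))
      (Pool.Agent.Y436.SQ.t_EXC Pool.Agent.Y779.SQ.t_ELS) Pool.Agent.Y848.SQ.t_SW3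

/-- the density for `n ^ 2 + h` if the singular factor is not small -/
theorem lo_low (w : ℕ) (hw : 2 ≤ w) : ∃ c : ℝ, 0 < c ∧ ∀ y h : ℕ, 2 ≤ y → 1 / 2 ≤ Ff w y h →
    c / Real.log y ≤ lo (QF h) y := by
  obtain ⟨c1, C1, hc1, hC1, hV⟩ := Pool.Agent.Y810.SQ.V1_bounds
  have hw0 : (0 : ℝ) < w := by exact_mod_cast (by omega : 0 < w)
  have hw2 : (2 : ℝ) ≤ w := by exact_mod_cast hw
  refine ⟨(1 / (w : ℝ)) ^ w * (c1 / 2), by positivity, ?_⟩
  intro y h hy hF
  have hyr : (2 : ℝ) ≤ y := by exact_mod_cast hy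
  have hly : 0 < Real.log y := Real.log_pos (by linarith)
  have hpr : ∀ p ∈ Pool.Agent.Y862.SQ.pr y, p.Prime := by
    intro p hp
    unfold Pool.Agent.Y862.SQ.pr at hp
    exact (mem_filter.1 hp).2
  have e1 : lo (QF h) y = (∏ p ∈ (Pool.Agent.Y862.SQ.pr y).filter (fun p => w < p),
      (1 - (ro (QF h) 0 p : ℝ) / p)) *
      ∏ p ∈ (Pool.Agent.Y862.SQ.pr y).filter (fun p => ¬ w < p), (1 - (ro (QF h) 0 p : ℝ) / p) := by
    unfold lo
    exact (prod_filter_mul_prod_filter_not _ _ _).symm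
  have e2 : (∏ p ∈ (Pool.Agent.Y862.SQ.pr y).filter (fun p => w < p),
      (1 - (ro (QF h) 0 p : ℝ) / p)) = V1t w y * Ff w y h := by
    unfold V1t Ff
    rw [← prod_mul_distrib]
    apply prod_congr rfl
    intro p hp
    rw [mem_filter] at hp
    have hpp := hpr p hp.1
    have h2 : p ≠ 2 := by omega
    have h3 := ro_quad (h : ℤ) p hpp h2
    have h4 : (ro (QF h) 0 p : ℝ) = 1 + (leg h p : ℝ) := by
      unfold leg
      exact_mod_cast h3
    rw [h4]
    have hp2 : (2 : ℝ) < p := by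
      have : 2 < p := by omega
      exact_mod_cast this
    have hp0 : (p : ℝ) ≠ 0 := by linarith
    have hp1 : (p : ℝ) - 1 ≠ 0 := by linarith
    field_simp
    ring
  have hV0 : ∀ p ∈ Pool.Agent.Y862.SQ.pr y, (0 : ℝ) < 1 - 1 / (p : ℝ) ∧ 1 - 1 / (p : ℝ) ≤ 1 := by
    intro p hp
    have hp2 : (2 : ℝ) ≤ p := by exact_mod_cast (hpr p hp).two_le
    constructor
    · rw [sub_pos, div_lt_one (by linarith)]
      linarith
    · have : (0 : ℝ) ≤ 1 / (p : ℝ) := by positivity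
      linarith
  have e3 : V1 y ≤ V1t w y := by
    unfold V1 V1t
    rw [← prod_filter_mul_prod_filter_not (Pool.Agent.Y862.SQ.pr y) (fun p => w < p)]
    calc _ ≤ (∏ p ∈ (Pool.Agent.Y862.SQ.pr y).filter (fun p => w < p), (1 - 1 / (p : ℝ))) * 1 := by
          apply mul_le_mul_of_nonneg_left
          · apply prod_le_one
            · intro p hp
              exact (hV0 p (mem_filter.1 hp).1).1.le
            · intro p hp
              exact (hV0 p (mem_filter.1 hp).1).2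
          · apply prod_nonneg
            intro p hp
            exact (hV0 p (mem_filter.1 hp).1).1.le
      _ = _ := mul_one _
  have e4 : (1 / (w : ℝ)) ^ w ≤
      ∏ p ∈ (Pool.Agent.Y862.SQ.pr y).filter (fun p => ¬ w < p), (1 - (ro (QF h) 0 p : ℝ) / p) := by
    have g1 : ((Pool.Agent.Y862.SQ.pr y).filter (fun p => ¬ w < p)).card ≤ w := by
      have g2 : (Pool.Agent.Y862.SQ.pr y).filter (fun p => ¬ w < p) ⊆ Icc 1 w := by
        intro p hp
        rw [mem_filter] at hp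
        have := (hpr p hp.1).one_le
        rw [mem_Icc]
        omega
      simpa using card_le_card g2
    calc (1 / (w : ℝ)) ^ w ≤
        (1 / (w : ℝ)) ^ ((Pool.Agent.Y862.SQ.pr y).filter (fun p => ¬ w < p)).card := by
          apply pow_le_pow_of_le_one (by positivity) _ g1
          rw [div_le_one hw0]
          linarith
      _ = ∏ p ∈ (Pool.Agent.Y862.SQ.pr y).filter (fun p => ¬ w < p), (1 / (w : ℝ)) := by
          rw [prod_const]
      _ ≤ _ := by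
          apply Finset.prod_le_prod
          · intro p _
            positivity
          · intro p hp
            rw [mem_filter] at hp
            have hpp := hpr p hp.1
            have hp0 : (0 : ℝ) < p := by exact_mod_cast hpp.pos
            have hpw : (p : ℝ) ≤ w := by exact_mod_cast (by omega : p ≤ w)
            have hro : ro (QF h) 0 p + 1 ≤ p := by
              by_cases h2 : p = 2
              · rw [h2, ro_quad_two]
              · have := ro_quad_le (h : ℤ) p hpp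
                have := hpp.two_le
                omega
            have hro' : (ro (QF h) 0 p : ℝ) + 1 ≤ p := by exact_mod_cast hro
            calc 1 / (w : ℝ) ≤ 1 / (p : ℝ) := one_div_le_one_div_of_le hp0 hpw
              _ ≤ _ := by
                rw [le_sub_iff_add_le, ← add_div, div_le_one hp0]
                linarith
  rw [e1, e2]
  have h5 := (hV y hy).1
  have h6 : c1 / 2 / Real.log y ≤ V1t w y * Ff w y h := by
    calc c1 / 2 / Real.log y = c1 / Real.log y * (1 / 2) := by ring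
      _ ≤ V1t w y * Ff w y h := by
          apply mul_le_mul (h5.trans e3) hF (by norm_num)
          exact le_trans (by positivity) (h5.trans e3)
  calc (1 / (w : ℝ)) ^ w * (c1 / 2) / Real.log y = (c1 / 2 / Real.log y) * (1 / (w : ℝ)) ^ w := by ring
    _ ≤ _ := by
        apply mul_le_mul h6 e4 (by positivity)
        exact le_trans (by positivity) h6

open Classical in
/-- most shifts are good -/
theorem good_h (ε : ℝ) (hε : 0 < ε) : ∃ c : ℝ, 0 < c ∧ ∃ T0 : ℕ, ∀ T : ℕ, T0 ≤ T → ∀ y : ℕ, 2 ≤ y →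
    (((Icc 1 T).filter (fun h : ℕ => lo (QF h) y < c / Real.log y)).card : ℝ) ≤ ε * T := by
  obtain ⟨w0, hw0⟩ := t_FM'
  obtain ⟨w, hw⟩ : ∃ w : ℕ, w = max w0 (max 2 ⌈(4 / ε) ^ 2⌉₊) := ⟨_, rfl⟩
  have hw1 : w0 ≤ w := by rw [hw]; exact le_max_left _ _
  have hw2 : 2 ≤ w := by rw [hw]; exact (le_max_left _ _).trans (le_max_right _ _)
  have hw3 : (4 / ε) ^ 2 ≤ (w : ℝ) := by
    have h1 := Nat.le_ceil ((4 / ε) ^ 2)
    refine h1.trans ?_
    have : ⌈(4 / ε) ^ 2⌉₊ ≤ w := by rw [hw]; exact (le_max_right _ _).trans (le_max_right _ _)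
    exact_mod_cast this
  obtain ⟨T0, hT0⟩ := hw0 w hw1
  obtain ⟨c, hc, hlo⟩ := lo_low w hw2
  refine ⟨c, hc, T0, ?_⟩
  intro T hT y hy
  have h1 := hT0 T hT y
  set A := (Icc 1 T).filter (fun h : ℕ => lo (QF h) y < c / Real.log y) with hA
  have h2 : (A.card : ℝ) * (1 / 4) ≤ ∑ h ∈ Icc 1 T, (Ff w y h - 1) ^ 2 := by
    calc (A.card : ℝ) * (1 / 4) = ∑ h ∈ A, (1 / 4 : ℝ) := by rw [sum_const, nsmul_eq_mul]
      _ ≤ ∑ h ∈ A, (Ff w y h - 1) ^ 2 := by
          apply sum_le_sum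
          intro h hh
          rw [hA, mem_filter] at hh
          have h3 : Ff w y h < 1 / 2 := by
            by_contra hcon
            exact absurd (hlo y h hy (not_lt.1 hcon)) (not_le.2 hh.2)
          nlinarith
      _ ≤ _ := sum_le_sum_of_subset_of_nonneg (filter_subset _ _) (fun _ _ _ => sq_nonneg _)
  have hs : 4 / ε ≤ √(w : ℝ) := Real.le_sqrt_of_sq_le hw3
  have hs0 : 0 < √(w : ℝ) := lt_of_lt_of_le (by positivity) hs
  have h4 : (T : ℝ) / √(w : ℝ) ≤ ε * T / 4 := by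
    rw [div_le_iff₀ hs0]
    have : ε * T / 4 * √(w : ℝ) ≥ ε * T / 4 * (4 / ε) := mul_le_mul_of_nonneg_left hs (by positivity)
    have e : ε * T / 4 * (4 / ε) = T := by field_simp
    linarith
  linarith

/-- the second moment -/
theorem second (θ x : ℝ) (hθ : 0 < θ) (hx : 0 < x) : ∃ (r : ℕ) (C : ℝ), 6 ≤ r ∧ 0 < C ∧ ∃ X0 : ℕ,
    ∀ X : ℕ, X0 ≤ X → ∀ Z Y T : ℕ, (X : ℝ) ^ θ ≤ Y → x * Real.log X ≤ T →
      ∑ n ∈ Ioc Z (Z + Y), (Ns ⌊(X : ℝ) ^ (1 / (r : ℝ))⌋₊ T n : ℝ) ^ 2 ≤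
        C * Y * (T / Real.log X) ^ 2 := by
  obtain ⟨c1, C1, hc1, hC1, hV⟩ := Pool.Agent.Y810.SQ.V1_bounds
  obtain ⟨K0, y0, T0, h0⟩ := t_MOM 0 1 one_pos
  obtain ⟨K1, y1, T1, h1⟩ := t_MOM 1 1 one_pos
  obtain ⟨R, hR⟩ := exists_nat_ge (((K0 + K1 : ℕ) : ℝ) / θ)
  obtain ⟨r, hr⟩ : ∃ r : ℕ, r = R + 6 := ⟨_, rfl⟩
  have hr6 : 6 ≤ r := by omega
  have hr0 : (0 : ℝ) < r := by exact_mod_cast (by omega : 0 < r)
  have hrK : ((K0 + K1 : ℕ) : ℝ) ≤ θ * r := by
    rw [div_le_iff₀ hθ] at hR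
    have : (R : ℝ) ≤ r := by exact_mod_cast (by omega : R ≤ r)
    nlinarith
  obtain ⟨A, hA⟩ : ∃ A : ℝ, A = 2 * r * C1 := ⟨_, rfl⟩
  have hA0 : 0 < A := by rw [hA]; positivity
  refine ⟨r, 2 * A ^ 2 + 2 * A / x + 3, hr6, by positivity, ?_⟩
  have hpow : Tendsto (fun X : ℕ => (X : ℝ) ^ (1 / (r : ℝ))) atTop atTop :=
    (tendsto_rpow_atTop (by positivity)).comp tendsto_natCast_atTop_atTop
  have hpow2 : Tendsto (fun X : ℕ => (X : ℝ) ^ (1 / (2 * r : ℝ))) atTop atTop :=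
    (tendsto_rpow_atTop (by positivity)).comp tendsto_natCast_atTop_atTop
  have hlog : Tendsto (fun X : ℕ => Real.log X) atTop atTop :=
    Real.tendsto_log_atTop.comp tendsto_natCast_atTop_atTop
  obtain ⟨X0, hX0⟩ := eventually_atTop.1 ((hpow.eventually_ge_atTop (((max y0 y1 : ℕ) : ℝ) + 3)).and
    ((hpow2.eventually_ge_atTop 2).and ((hlog.eventually_ge_atTop (((max T0 T1 : ℕ) : ℝ) / x + 1 / x + 1)).and
    ((evlog 4 0 θ hθ).and (eventually_ge_atTop 3)))))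
  refine ⟨X0, ?_⟩
  intro X hX Z Y T hY hT
  obtain ⟨e1, e2, e3, e4, e5⟩ := hX0 X hX
  have hXr : (3 : ℝ) ≤ X := by exact_mod_cast e5
  have hXp : (0 : ℝ) < X := by linarith
  have hX1r : (1 : ℝ) ≤ X := by linarith
  have hlX : 0 < Real.log X := Real.log_pos (by linarith)
  obtain ⟨y, hy⟩ : ∃ y : ℕ, y = ⌊(X : ℝ) ^ (1 / (r : ℝ))⌋₊ := ⟨_, rfl⟩
  rw [← hy]
  have hyle : (y : ℝ) ≤ (X : ℝ) ^ (1 / (r : ℝ)) := by rw [hy]; exact Nat.floor_le (by positivity)
  have hygt : (X : ℝ) ^ (1 / (r : ℝ)) < y + 1 := by rw [hy]; exact Nat.lt_floor_add_one _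
  have hymax : max y0 y1 ≤ y := by
    have : ((max y0 y1 : ℕ) : ℝ) ≤ y := by linarith
    exact_mod_cast this
  have hy0 : y0 ≤ y := (le_max_left _ _).trans hymax
  have hy1 : y1 ≤ y := (le_max_right _ _).trans hymax
  have hm0 : (0 : ℝ) ≤ ((max y0 y1 : ℕ) : ℝ) := Nat.cast_nonneg _
  have hy2r : (2 : ℝ) ≤ y := by linarith
  have hy2 : 2 ≤ y := by exact_mod_cast hy2r
  have hxT : x * (((max T0 T1 : ℕ) : ℝ) / x + 1 / x + 1) ≤ T :=
    (mul_le_mul_of_nonneg_left e3 hx.le).trans hT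
  have hxT' : ((max T0 T1 : ℕ) : ℝ) + 1 + x ≤ T := by
    have : x * (((max T0 T1 : ℕ) : ℝ) / x + 1 / x + 1) = ((max T0 T1 : ℕ) : ℝ) + 1 + x := by
      field_simp
    linarith
  have hTmax : max T0 T1 ≤ T := by
    have : ((max T0 T1 : ℕ) : ℝ) ≤ T := by linarith
    exact_mod_cast this
  have hT0 : T0 ≤ T := (le_max_left _ _).trans hTmax
  have hT1 : T1 ≤ T := (le_max_right _ _).trans hTmax
  have hm1 : (0 : ℝ) ≤ ((max T0 T1 : ℕ) : ℝ) := Nat.cast_nonneg _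
  have hTr : (1 : ℝ) ≤ T := by linarith
  have hYr : (1 : ℝ) ≤ Y := (Real.one_le_rpow hX1r hθ.le).trans hY
  have hyK : ∀ K : ℕ, K ≤ K0 + K1 → y ^ K ≤ Y := by
    intro K hK
    have g : ((y ^ K : ℕ) : ℝ) ≤ Y := by
      push_cast
      calc (y : ℝ) ^ K ≤ ((X : ℝ) ^ (1 / (r : ℝ))) ^ K := pow_le_pow_left₀ (Nat.cast_nonneg _) hyle _
        _ = (X : ℝ) ^ (K / r : ℝ) := by
            rw [← Real.rpow_natCast, ← Real.rpow_mul hXp.le]
            congr 1
            ring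
        _ ≤ (X : ℝ) ^ θ := by
            apply Real.rpow_le_rpow_of_exponent_le hX1r
            rw [div_le_iff₀ hr0]
            refine le_trans ?_ hrK
            exact_mod_cast hK
        _ ≤ Y := hY
    exact_mod_cast g
  have m0 := (abs_le.1 (h0 Z Y y T hy0 (hyK K0 (by omega)) hT0)).2
  have m1 := (abs_le.1 (h1 Z Y y T hy1 (hyK K1 (by omega)) hT1)).2
  simp only [Nat.reduceAdd, zero_add, Nat.choose_one_right, pow_one, Nat.factorial_one, Nat.cast_one,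
    div_one, Nat.factorial_two, Nat.cast_ofNat] at m0 m1
  obtain ⟨u, hu⟩ : ∃ u : ℝ, u = T / Real.log X := ⟨_, rfl⟩
  have hux : x ≤ u := by
    rw [hu, le_div_iff₀ hlX]
    exact hT
  have hu0 : 0 < u := lt_of_lt_of_le hx hux
  have hTu : (T : ℝ) = u * Real.log X := by
    rw [hu]
    field_simp
  -- log y
  have hly : Real.log X / (2 * r) ≤ Real.log y := by
    have g1 : (X : ℝ) ^ (1 / (2 * r : ℝ)) ≤ y := by
      have g2 : (X : ℝ) ^ (1 / (r : ℝ)) = (X : ℝ) ^ (1 / (2 * r : ℝ)) * (X : ℝ) ^ (1 / (2 * r : ℝ)) := by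
        rw [← Real.rpow_add hXp]
        congr 1
        field_simp
        norm_num
      nlinarith
    have g3 := Real.log_le_log (by positivity) g1
    rw [Real.log_rpow hXp] at g3
    calc Real.log X / (2 * r) = 1 / (2 * r) * Real.log X := by ring
      _ ≤ _ := g3
  have hly0 : 0 < Real.log X / (2 * r) := by positivity
  have hV0 : 0 ≤ V1 y := Pool.Agent.Y862.SQ.V1_nonneg y
  have hVu : (T : ℝ) * V1 y ≤ A * u := by
    calc (T : ℝ) * V1 y ≤ T * (C1 / Real.log y) := mul_le_mul_of_nonneg_left (hV y hy2).2 (by linarith)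
      _ ≤ T * (C1 / (Real.log X / (2 * r))) := by
          apply mul_le_mul_of_nonneg_left _ (by linarith)
          exact div_le_div_of_nonneg_left hC1.le hly0 hly
      _ = A * u := by
          rw [hu, hA]
          field_simp
  have hTV0 : 0 ≤ (T : ℝ) * V1 y := by positivity
  -- the error
  have hsq : √(Y : ℝ) * √(Y : ℝ) = Y := Real.mul_self_sqrt (by linarith)
  have hlY : Real.log X ^ 2 ≤ √(Y : ℝ) := by
    apply Real.le_sqrt_of_sq_le
    calc (Real.log X ^ 2) ^ 2 = Real.log X ^ 4 + 0 := by ring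
      _ ≤ _ := e4.trans hY
  have hs0 : 0 ≤ √(Y : ℝ) := Real.sqrt_nonneg _
  have herr : (T : ℝ) ^ 2 * √(Y : ℝ) ≤ u ^ 2 * Y := by
    rw [hTu]
    calc (u * Real.log X) ^ 2 * √(Y : ℝ) = u ^ 2 * (Real.log X ^ 2 * √(Y : ℝ)) := by ring
      _ ≤ u ^ 2 * (√(Y : ℝ) * √(Y : ℝ)) := by
          apply mul_le_mul_of_nonneg_left _ (by positivity)
          exact mul_le_mul_of_nonneg_right hlY hs0
      _ = _ := by rw [hsq]
  have herr1 : (T : ℝ) * √(Y : ℝ) ≤ u ^ 2 * Y := by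
    refine le_trans ?_ herr
    apply mul_le_mul_of_nonneg_right _ hs0
    nlinarith
  have hsum : ∑ n ∈ Ioc Z (Z + Y), (Ns y T n : ℝ) ^ 2 =
      2 * ∑ n ∈ Ioc Z (Z + Y), ((Ns y T n).choose 2 : ℝ) + ∑ n ∈ Ioc Z (Z + Y), (Ns y T n : ℝ) := by
    rw [mul_sum, ← sum_add_distrib]
    apply sum_congr rfl
    intro n _
    exact Pool.Agent.Y862.SQ.two_choose _
  rw [hsum, ← hu]
  have k1 : ((T : ℝ) * V1 y) ^ 2 ≤ A ^ 2 * u ^ 2 := by
    rw [← mul_pow]
    exact pow_le_pow_left₀ hTV0 hVu 2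
  have k2 : u ≤ u ^ 2 / x := by
    rw [le_div_iff₀ hx]
    nlinarith
  have k3 : (T : ℝ) * V1 y ≤ A / x * u ^ 2 := by
    calc (T : ℝ) * V1 y ≤ A * u := hVu
      _ ≤ A * (u ^ 2 / x) := mul_le_mul_of_nonneg_left k2 hA0.le
      _ = _ := by ring
  have hY0 : (0 : ℝ) ≤ Y := by linarith
  have k4 := mul_le_mul_of_nonneg_left k1 hY0
  have k5 := mul_le_mul_of_nonneg_left k3 hY0
  have k6 : (2 * A ^ 2 + 2 * A / x + 3) * (Y : ℝ) * u ^ 2 =
      2 * (Y * (A ^ 2 * u ^ 2)) + 2 * (Y * (A / x * u ^ 2)) + 3 * (u ^ 2 * Y) := by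
    field_simp
  rw [k6]
  nlinarith

/-- Cauchy–Schwarz -/
theorem cs_core (S : Finset ℕ) (M N : ℕ → ℝ) (u δ C : ℝ) (hM0 : ∀ n ∈ S, 0 ≤ M n)
    (hMN : ∀ n ∈ S, M n ≤ N n) (hu : 0 < u) (hδ : 0 < δ) (hC : 0 < C)
    (h1 : δ * S.card * u ≤ ∑ n ∈ S, M n) (h2 : ∑ n ∈ S, N n ^ 2 ≤ C * S.card * u ^ 2) :
    δ ^ 2 / (4 * C) * S.card ≤ ((S.filter (fun n => δ / 2 * u ≤ M n)).card : ℝ) := by
  classical
  rcases S.eq_empty_or_nonempty with h | h
  · subst h
    simp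
  have hS : (0 : ℝ) < S.card := by exact_mod_cast card_pos.2 h
  set G := S.filter (fun n => δ / 2 * u ≤ M n) with hG
  have e1 : ∑ n ∈ S, M n ≤ ∑ n ∈ G, M n + δ / 2 * u * S.card := by
    rw [← sum_filter_add_sum_filter_not S (fun n => δ / 2 * u ≤ M n)]
    apply add_le_add le_rfl
    calc ∑ n ∈ S.filter (fun n => ¬ δ / 2 * u ≤ M n), M n ≤
        ∑ n ∈ S.filter (fun n => ¬ δ / 2 * u ≤ M n), δ / 2 * u := by
          apply sum_le_sum
          intro n hn
          rw [mem_filter] at hn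
          exact (not_le.1 hn.2).le
      _ = δ / 2 * u * (S.filter (fun n => ¬ δ / 2 * u ≤ M n)).card := by
          rw [sum_const, nsmul_eq_mul]
          ring
      _ ≤ _ := by
          apply mul_le_mul_of_nonneg_left _ (by positivity)
          exact_mod_cast card_filter_le _ _
  have e2 : δ / 2 * u * S.card ≤ ∑ n ∈ G, M n := by linarith
  have e3 : (∑ n ∈ G, M n) ^ 2 ≤ G.card * ∑ n ∈ G, M n ^ 2 := sq_sum_le_card_mul_sum_sq
  have e4 : ∑ n ∈ G, M n ^ 2 ≤ C * S.card * u ^ 2 := by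
    refine le_trans ?_ h2
    calc ∑ n ∈ G, M n ^ 2 ≤ ∑ n ∈ G, N n ^ 2 := by
          apply sum_le_sum
          intro n hn
          have hn' := (mem_filter.1 hn).1
          exact pow_le_pow_left₀ (hM0 n hn') (hMN n hn') 2
      _ ≤ _ := sum_le_sum_of_subset_of_nonneg (filter_subset _ _) (fun _ _ _ => sq_nonneg _)
  have e5 : (δ / 2 * u * S.card) ^ 2 ≤ G.card * (C * S.card * u ^ 2) := by
    calc (δ / 2 * u * S.card) ^ 2 ≤ (∑ n ∈ G, M n) ^ 2 := pow_le_pow_left₀ (by positivity) e2 2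
      _ ≤ _ := e3
      _ ≤ _ := mul_le_mul_of_nonneg_left e4 (Nat.cast_nonneg _)
  have e6 : δ ^ 2 * S.card * (S.card * u ^ 2) ≤ 4 * C * G.card * (S.card * u ^ 2) := by nlinarith
  have e7 : δ ^ 2 * S.card ≤ 4 * C * G.card := le_of_mul_le_mul_right e6 (by positivity)
  rw [div_mul_eq_mul_div, div_le_iff₀ (by positivity)]
  linarith

end Pool.Agent.K1H50.SQ3
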