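import Pool.Agent.K1H50.SQ3.U2

/-! The first moment in windows. -/

set_option autoImplicit false

namespace Pool.Agent.K1H50.SQ3

open Finset Polynomial Filter
open Pool.Agent.Y882.PX
open Pool.Agent.Y882.SI
open Pool.Agent.Y882.KW
open Pool.Agent.Y882.MG

/-- the numerical data: level `73/100`, three prime factors -/
theorem finN (B : ℕ) (c : ℝ) (hc : 0 < c) (h ε : ℝ) (hh : 0 < h) (hh1 : h ≤ 73 / 100) (hε : 0 < ε) :
    ∃ δ : ℝ, 0 < δ ∧ ∃ X0 : ℕ, ∀ X : ℕ, X0 ≤ X → ∀ a : ℤ, ¬ IsSquare (-a) →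
      |(a : ℝ)| ≤ Real.log X ^ B → c / Real.log X ≤ lo (QF a) X →
      (((Icc 1 (2 * X)).filter (fun N => ((gset a 3 ((X : ℝ) ^ (73 / 400 : ℝ)) N
        ⌊(X : ℝ) ^ h⌋₊).card : ℝ) < δ * (X : ℝ) ^ h / Real.log X)).card : ℝ) ≤
      (X : ℝ) ^ (73 / 50 - h + ε) := by
  have key := cond_A (73 / 100) (8 / 9) (by norm_num) (by norm_num) (by norm_num)
  obtain ⟨δ, hδ, X0, H⟩ := finU B c hc 3 (73 / 100) (73 / 100 / 4) (24 / 25 * (73 / 100)) (8 / 9)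
    (201 / 100) (by norm_num) (by norm_num) (by norm_num) (by norm_num) (by norm_num) (by norm_num)
    (by norm_num) (by norm_num) key (by norm_num) (by norm_num) h ε hh hh1 hε
  refine ⟨δ, hδ, X0, fun X hX a ha haB haL => ?_⟩
  have h1 := H X hX a ha haB haL
  have e1 : (73 / 100 / 4 : ℝ) = 73 / 400 := by norm_num
  have e2 : (2 * (73 / 100) - h + ε : ℝ) = 73 / 50 - h + ε := by ring
  rw [e1, e2] at h1
  exact h1

open Classical in
theorem win_abs (Q : ℕ → Prop) (X Z Y : ℕ) (P t δ l : ℝ) (hP1 : 1 ≤ P) (ht : 16 ≤ t) (hδ : 0 < δ)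
    (hl : 0 < l) (hY : P * t * t ≤ Y) (hZY : Z + Y ≤ 2 * X)
    (hE : (((Icc 1 (2 * X)).filter (fun n => (((Ioc n (n + ⌊P⌋₊)).filter Q).card : ℝ) <
      δ * P / l)).card : ℝ) ≤ P * t) :
    δ / 4 * Y / l ≤ (((Ioc Z (Z + Y)).filter Q).card : ℝ) := by
  set L := ⌊P⌋₊ with hL
  have hLle : (L : ℝ) ≤ P := Nat.floor_le (by linarith)
  have hL1 : 1 ≤ L := Nat.le_floor (by push_cast; exact hP1)
  have hPt : P ≤ P * t := le_mul_of_one_le_right (by linarith) (by linarith)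
  have hPt0 : 0 ≤ P * t := by linarith
  have hPtt : 16 * (P * t) ≤ Y := by
    calc 16 * (P * t) ≤ t * (P * t) := mul_le_mul_of_nonneg_right ht hPt0
      _ = P * t * t := by ring
      _ ≤ Y := hY
  have hY2 : (16 : ℝ) ≤ Y := by linarith
  have hYn : 16 ≤ Y := by exact_mod_cast hY2
  obtain ⟨N, hN⟩ : ∃ N : ℕ, N = max Z 1 := ⟨_, rfl⟩
  obtain ⟨W, hW⟩ : ∃ W : ℕ, W = Y - 1 := ⟨_, rfl⟩
  have hWr : (W : ℝ) = Y - 1 := by rw [hW, Nat.cast_sub (by omega)]; simp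
  have hLW : L ≤ W := by
    have : (L : ℝ) ≤ W := by
      rw [hWr]
      linarith
    exact_mod_cast this
  have hB0 : 0 ≤ δ * P / l := by positivity
  have hls := long_of_short Q N L W (2 * X) (δ * P / l) (P * t) (by omega) hLW (by omega) (by omega)
    hB0 hE
  have hcard : ((((Ioc N (N + W)).filter Q).card : ℕ) : ℝ) ≤ (((Ioc Z (Z + Y)).filter Q).card : ℝ) := by
    apply Nat.cast_le.2
    apply card_le_card
    apply filter_subset_filter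
    intro n hn
    rw [mem_Ioc] at hn ⊢
    omega
  have h3 : (Y : ℝ) / 2 * (δ * P / l) ≤ P * (((Ioc Z (Z + Y)).filter Q).card : ℝ) := by
    calc (Y : ℝ) / 2 * (δ * P / l) ≤ ((W : ℝ) - L - P * t) * (δ * P / l) := by
          apply mul_le_mul_of_nonneg_right _ hB0
          rw [hWr]
          linarith
      _ ≤ L * _ := hls
      _ ≤ _ := mul_le_mul hLle hcard (Nat.cast_nonneg _) (by linarith)
  have h4 : P * (δ / 4 * Y / l) ≤ P * (((Ioc Z (Z + Y)).filter Q).card : ℝ) := by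
    refine le_trans ?_ h3
    have : P * (δ / 4 * Y / l) = (Y : ℝ) / 4 * (δ * P / l) := by ring
    rw [this]
    apply mul_le_mul_of_nonneg_right _ hB0
    linarith
  exact le_of_mul_le_mul_left h4 (by linarith)

/-- all windows of length `X ^ (3/4)` -/
theorem winA (B : ℕ) (c : ℝ) (hc : 0 < c) :
    ∃ δ : ℝ, 0 < δ ∧ ∃ X0 : ℕ, ∀ X : ℕ, X0 ≤ X → ∀ a : ℤ, ¬ IsSquare (-a) →
      |(a : ℝ)| ≤ Real.log X ^ B → c / Real.log X ≤ lo (QF a) X →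
      ∀ Z Y : ℕ, (X : ℝ) ^ (3 / 4 : ℝ) ≤ Y → Z + Y ≤ 2 * X →
        δ * Y / Real.log X ≤ ((gset a 3 ((X : ℝ) ^ (73 / 400 : ℝ)) Z Y).card : ℝ) := by
  classical
  obtain ⟨δ, hδ, X1, H⟩ := finN B c hc (73 / 100) (1 / 100) (by norm_num) le_rfl (by norm_num)
  have ev1 : ∀ᶠ X : ℕ in atTop, (16 : ℝ) ≤ (X : ℝ) ^ (1 / 100 : ℝ) :=
    ((tendsto_rpow_atTop (by norm_num)).comp tendsto_natCast_atTop_atTop).eventually_ge_atTop _
  obtain ⟨X2, h2⟩ := eventually_atTop.1 (ev1.and (eventually_ge_atTop 3))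
  refine ⟨δ / 4, by positivity, max X1 X2, ?_⟩
  intro X hX a ha haB haL Z Y hY hZY
  obtain ⟨e1, e2⟩ := h2 X ((le_max_right _ _).trans hX)
  have hE := H X ((le_max_left _ _).trans hX) a ha haB haL
  have hXr : (3 : ℝ) ≤ X := by exact_mod_cast e2
  have hX0 : (0 : ℝ) < X := by linarith
  have hX1 : (1 : ℝ) ≤ X := by linarith
  have hlX : 0 < Real.log X := Real.log_pos (by linarith)
  have hexp : (73 / 50 - 73 / 100 + 1 / 100 : ℝ) = 74 / 100 := by norm_num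
  rw [hexp] at hE
  obtain ⟨P, hP⟩ : ∃ P : ℝ, P = (X : ℝ) ^ (73 / 100 : ℝ) := ⟨_, rfl⟩
  obtain ⟨t, ht⟩ : ∃ t : ℝ, t = (X : ℝ) ^ (1 / 100 : ℝ) := ⟨_, rfl⟩
  obtain ⟨z, hz⟩ : ∃ z : ℝ, z = (X : ℝ) ^ (73 / 400 : ℝ) := ⟨_, rfl⟩
  have h74 : (X : ℝ) ^ (74 / 100 : ℝ) = P * t := by
    rw [hP, ht, ← Real.rpow_add hX0]
    congr 1
    norm_num
  have h75 : (X : ℝ) ^ (3 / 4 : ℝ) = P * t * t := by
    rw [hP, ht, ← Real.rpow_add hX0, ← Real.rpow_add hX0]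
    congr 1
    norm_num
  have hP1 : 1 ≤ P := by rw [hP]; exact Real.one_le_rpow hX1 (by norm_num)
  rw [h74, ← hP, ← hz] at hE
  rw [h75] at hY
  rw [← ht] at e1
  rw [← hz]
  clear h74 h75 hP ht hz
  obtain ⟨Q, hQ⟩ : ∃ Q : ℕ → Prop, ∀ n : ℕ, Q n ↔ (((n : ℤ) ^ 2 + a).natAbs.primeFactorsList.length ≤ 3 ∧
    ∀ p : ℕ, p.Prime → (p : ℤ) ∣ (n : ℤ) ^ 2 + a → z ≤ p) := ⟨_, fun n => Iff.rfl⟩
  have e6 : ∀ n L : ℕ, gset a 3 z n L = (Ioc n (n + L)).filter Q := by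
    intro n L
    ext m
    unfold gset
    rw [mem_filter, mem_filter, hQ]
  rw [e6]
  apply win_abs Q X Z Y P t δ (Real.log X) hP1 e1 hδ hlX hY hZY
  refine le_trans (le_of_eq ?_) hE
  congr 2
  apply filter_congr
  intro n _
  rw [e6]

end Pool.Agent.K1H50.SQ3
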