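import Pool.Agent.K1H50.SQ3.U3

/-! Numbers with at most three prime factors just above squares. -/

set_option autoImplicit false

namespace Pool.Agent.K1H50.SQ3

open Finset Polynomial Filter
open Pool.Agent.Y882.PX
open Pool.Agent.Y882.SI
open Pool.Agent.Y862.SQ (Ns)

/-- `m` has at most three prime factors (with multiplicity), all at least `n ^ (9 / 50)` -/
def P3 (n m : ℕ) : Prop :=
  m.primeFactorsList.length ≤ 3 ∧ ∀ p : ℕ, p.Prime → p ∣ m → (n : ℝ) ^ (9 / 50 : ℝ) ≤ (p : ℝ)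

open Classical in
/-- the number of the `m` in `(n ^ 2, n ^ 2 + T]` with at most three prime factors, all at least
`n ^ (9 / 50)` -/
noncomputable def N3 (n T : ℕ) : ℕ := ((Ioc (n ^ 2) (n ^ 2 + T)).filter (fun m => P3 n m)).card

/-- the internal condition -/
def Gd (X m : ℕ) : Prop :=
  m.primeFactorsList.length ≤ 3 ∧ ∀ p : ℕ, p.Prime → p ∣ m → (X : ℝ) ^ (73 / 400 : ℝ) ≤ (p : ℝ)

open Classical in
/-- the internal count -/
noncomputable def Mc (X n T : ℕ) : ℕ := ((Icc 1 T).filter (fun h => Gd X (n ^ 2 + h))).card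

theorem Mc_le_Ns (X n T r : ℕ) (hr : 6 ≤ r) (hX : 2 ≤ X) :
    Mc X n T ≤ Ns ⌊(X : ℝ) ^ (1 / (r : ℝ))⌋₊ T n := by
  classical
  unfold Mc Ns
  apply card_le_card
  intro h hh
  rw [mem_filter] at hh ⊢
  refine ⟨hh.1, ?_⟩
  intro p hp hd
  unfold Pool.Agent.Y862.SQ.pr at hp
  rw [mem_filter, mem_Icc] at hp
  have h1 := hh.2.2 p hp.2 hd
  have hXr : (1 : ℝ) < X := by exact_mod_cast (by omega : 1 < X)
  have h2 : (p : ℝ) ≤ (X : ℝ) ^ (1 / (r : ℝ)) := (Nat.le_floor_iff (by positivity)).1 hp.1.2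
  have h3 : (X : ℝ) ^ (1 / (r : ℝ)) < (X : ℝ) ^ (73 / 400 : ℝ) := by
    apply Real.rpow_lt_rpow_of_exponent_lt hXr
    have hr' : (6 : ℝ) ≤ r := by exact_mod_cast hr
    calc 1 / (r : ℝ) ≤ 1 / 6 := one_div_le_one_div_of_le (by norm_num) hr'
      _ < _ := by norm_num
  linarith

theorem Mc_le_N3 (X n T : ℕ) (hn : (n : ℝ) ^ (9 / 50 : ℝ) ≤ (X : ℝ) ^ (73 / 400 : ℝ)) :
    Mc X n T ≤ N3 n T := by
  classical
  unfold Mc N3
  apply card_le_card_of_injOn (fun h => n ^ 2 + h)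
  · intro h hh
    rw [mem_coe, mem_filter, mem_Icc] at hh
    show n ^ 2 + h ∈ _
    rw [mem_coe, mem_filter, mem_Ioc]
    exact ⟨⟨by omega, by omega⟩, hh.2.1, fun p hp hd => hn.trans (hh.2.2 p hp hd)⟩
  · intro a _ b _ hab
    simpa using hab

open Classical in
theorem first (X Z Y T : ℕ) (δ : ℝ) (hδ : 0 ≤ δ) (hlX : 0 < Real.log X) (G : Finset ℕ)
    (hG : G ⊆ Icc 1 T) (hGc : (T : ℝ) / 2 ≤ G.card)
    (hd : ∀ h ∈ G, δ * Y / Real.log X ≤ ((gset (h : ℤ) 3 ((X : ℝ) ^ (73 / 400 : ℝ)) Z Y).card : ℝ)) :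
    δ / 2 * Y * (T / Real.log X) ≤ ∑ n ∈ Ioc Z (Z + Y), (Mc X n T : ℝ) := by
  have e1 : ∑ n ∈ Ioc Z (Z + Y), (Mc X n T : ℝ) =
      ∑ h ∈ Icc 1 T, (((Ioc Z (Z + Y)).filter (fun n => Gd X (n ^ 2 + h))).card : ℝ) := by
    unfold Mc
    simp_rw [card_filter]
    push_cast
    rw [sum_comm]
  have e2 : ∀ h : ℕ, gset (h : ℤ) 3 ((X : ℝ) ^ (73 / 400 : ℝ)) Z Y ⊆
      (Ioc Z (Z + Y)).filter (fun n => Gd X (n ^ 2 + h)) := by
    intro h n hn
    unfold gset at hn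
    rw [mem_filter] at hn ⊢
    refine ⟨hn.1, ?_, ?_⟩
    · have h1 := hn.2.1
      have h2 : ((n : ℤ) ^ 2 + (h : ℤ)).natAbs = n ^ 2 + h := by
        have : ((n : ℤ) ^ 2 + (h : ℤ)) = ((n ^ 2 + h : ℕ) : ℤ) := by push_cast; rfl
        rw [this, Int.natAbs_natCast]
      rwa [h2] at h1
    · intro p hp hpd
      apply hn.2.2 p hp
      have : ((n : ℤ) ^ 2 + (h : ℤ)) = ((n ^ 2 + h : ℕ) : ℤ) := by push_cast; rfl
      rw [this]
      exact_mod_cast hpd
  rw [e1]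
  calc δ / 2 * Y * (T / Real.log X) = (T / 2) * (δ * Y / Real.log X) := by ring
    _ ≤ G.card * (δ * Y / Real.log X) := mul_le_mul_of_nonneg_right hGc (by positivity)
    _ = ∑ h ∈ G, δ * Y / Real.log X := by rw [sum_const, nsmul_eq_mul]
    _ ≤ ∑ h ∈ G, (((Ioc Z (Z + Y)).filter (fun n => Gd X (n ^ 2 + h))).card : ℝ) := by
        apply sum_le_sum
        intro h hh
        refine (hd h hh).trans ?_
        exact_mod_cast card_le_card (e2 h)
    _ ≤ _ := sum_le_sum_of_subset_of_nonneg hG (fun _ _ _ => Nat.cast_nonneg _)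

open Classical in
/-- first and second moment together -/
theorem assemble (θ x δ : ℝ) (hθ : 0 < θ) (hx : 0 < x) (hδ : 0 < δ) :
    ∃ c : ℝ, 0 < c ∧ ∃ X0 : ℕ, ∀ X : ℕ, X0 ≤ X → ∀ Z Y T : ℕ, (X : ℝ) ^ θ ≤ Y → Z + Y ≤ 3 * X →
      x * Real.log X ≤ T → ∀ G ⊆ Icc 1 T, (T : ℝ) / 2 ≤ G.card →
      (∀ h ∈ G, δ * Y / Real.log X ≤ ((gset (h : ℤ) 3 ((X : ℝ) ^ (73 / 400 : ℝ)) Z Y).card : ℝ)) →
      c * Y ≤ (((Ioc Z (Z + Y)).filter (fun n => c * T / Real.log X ≤ N3 n T)).card : ℝ) := by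
  obtain ⟨r, C, hr6, hC, X1, hS⟩ := second θ x hθ hx
  have ev1 : ∀ᶠ X : ℕ in atTop, (3 : ℝ) ^ (9 / 50 : ℝ) ≤ (X : ℝ) ^ (1 / 400 : ℝ) :=
    ((tendsto_rpow_atTop (by norm_num)).comp tendsto_natCast_atTop_atTop).eventually_ge_atTop _
  obtain ⟨X2, h2⟩ := eventually_atTop.1 (ev1.and (eventually_ge_atTop 3))
  refine ⟨min ((δ / 2) ^ 2 / (4 * C)) (δ / 2 / 2), lt_min (by positivity) (by positivity), max X1 X2, ?_⟩
  intro X hX Z Y T hY hZY hT G hG hGc hd
  obtain ⟨e1, e2⟩ := h2 X ((le_max_right _ _).trans hX)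
  have hXr : (3 : ℝ) ≤ X := by exact_mod_cast e2
  have hX0 : (0 : ℝ) < X := by linarith
  have hX1 : (1 : ℝ) ≤ X := by linarith
  have hlX : 0 < Real.log X := Real.log_pos (by linarith)
  have hsec := hS X ((le_max_left _ _).trans hX) Z Y T hY hT
  have hfir := first X Z Y T δ hδ.le hlX G hG hGc hd
  have hu : 0 < (T : ℝ) / Real.log X := by
    have h3 : x ≤ (T : ℝ) / Real.log X := by
      rw [le_div_iff₀ hlX]
      exact hT
    linarith
  have hcard : ((Ioc Z (Z + Y)).card : ℝ) = Y := by simp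
  have key := cs_core (Ioc Z (Z + Y)) (fun n => (Mc X n T : ℝ))
    (fun n => (Ns ⌊(X : ℝ) ^ (1 / (r : ℝ))⌋₊ T n : ℝ)) (T / Real.log X) (δ / 2) C
    (fun n _ => Nat.cast_nonneg _) (fun n _ => by exact_mod_cast Mc_le_Ns X n T r hr6 (by omega))
    hu (by positivity) hC (by rw [hcard]; exact hfir) (by rw [hcard]; exact hsec)
  rw [hcard] at key
  have hY0 : (0 : ℝ) ≤ Y := Nat.cast_nonneg _
  calc min ((δ / 2) ^ 2 / (4 * C)) (δ / 2 / 2) * Y ≤ (δ / 2) ^ 2 / (4 * C) * Y :=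
        mul_le_mul_of_nonneg_right (min_le_left _ _) hY0
    _ ≤ _ := key
    _ ≤ _ := by
        apply Nat.cast_le.2
        apply card_le_card
        intro n hn
        rw [mem_filter] at hn ⊢
        refine ⟨hn.1, ?_⟩
        have hnX : (n : ℝ) ≤ 3 * X := by
          have := (mem_Ioc.1 hn.1).2
          exact_mod_cast (by omega : n ≤ 3 * X)
        have hpow : (n : ℝ) ^ (9 / 50 : ℝ) ≤ (X : ℝ) ^ (73 / 400 : ℝ) := by
          calc (n : ℝ) ^ (9 / 50 : ℝ) ≤ (3 * (X : ℝ)) ^ (9 / 50 : ℝ) :=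
                Real.rpow_le_rpow (Nat.cast_nonneg _) hnX (by norm_num)
            _ = 3 ^ (9 / 50 : ℝ) * (X : ℝ) ^ (9 / 50 : ℝ) := Real.mul_rpow (by norm_num) hX0.le
            _ ≤ (X : ℝ) ^ (1 / 400 : ℝ) * (X : ℝ) ^ (9 / 50 : ℝ) :=
                mul_le_mul_of_nonneg_right e1 (by positivity)
            _ = _ := by
                rw [← Real.rpow_add hX0]
                congr 1
                norm_num
        have h4 : (Mc X n T : ℝ) ≤ N3 n T := by exact_mod_cast Mc_le_N3 X n T hpow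
        refine le_trans ?_ (hn.2.trans h4)
        rw [mul_div_assoc]
        exact mul_le_mul_of_nonneg_right (min_le_right _ _) hu.le

theorem not_sq (h : ℕ) (hh : 1 ≤ h) : ¬ IsSquare (-(h : ℤ)) := by
  rintro ⟨k, hk⟩
  have := mul_self_nonneg k
  omega

open Classical in
/-- **All windows of length `X ^ (3/4)`.** -/
theorem allWin (x : ℝ) (B : ℕ) (hx : 0 < x) :
    ∃ c : ℝ, 0 < c ∧ ∃ X0 : ℕ, ∀ X : ℕ, X0 ≤ X → ∀ Z Y T : ℕ, (X : ℝ) ^ (3 / 4 : ℝ) ≤ Y →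
      Z + Y ≤ 2 * X → x * Real.log X ≤ T → (T : ℝ) ≤ Real.log X ^ B →
      c * Y ≤ (((Ioc Z (Z + Y)).filter (fun n => c * T / Real.log X ≤ N3 n T)).card : ℝ) := by
  obtain ⟨c1, hc1, T1, hG⟩ := good_h (1 / 2) (by norm_num)
  obtain ⟨δ, hδ, X1, hW⟩ := winA B c1 hc1
  obtain ⟨c, hc, X2, hA⟩ := assemble (3 / 4) x δ (by norm_num) hx hδ
  have hlog : Tendsto (fun X : ℕ => Real.log X) atTop atTop :=
    Real.tendsto_log_atTop.comp tendsto_natCast_atTop_atTop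
  obtain ⟨X3, h3⟩ := eventually_atTop.1 ((hlog.eventually_ge_atTop ((T1 : ℝ) / x)).and
    (eventually_ge_atTop 3))
  refine ⟨c, hc, max (max X1 X2) X3, ?_⟩
  intro X hX Z Y T hY hZY hT hTB
  obtain ⟨e1, e2⟩ := h3 X ((le_max_right _ _).trans hX)
  have hTT : T1 ≤ T := by
    have h5 : (T1 : ℝ) ≤ T := by
      rw [div_le_iff₀ hx] at e1
      linarith
    exact_mod_cast h5
  have hbad := hG T hTT X (by omega)
  refine hA X (((le_max_right _ _).trans (le_max_left _ _)).trans hX) Z Y T hY (by omega) hT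
    ((Icc 1 T).filter (fun h : ℕ => ¬ lo (QF h) X < c1 / Real.log X)) (filter_subset _ _) ?_ ?_
  · have h6 := card_filter_add_card_filter_not (s := Icc 1 T)
      (fun h : ℕ => lo (QF h) X < c1 / Real.log X)
    rw [Nat.card_Icc, Nat.add_sub_cancel] at h6
    have h7 : (((Icc 1 T).filter (fun h : ℕ => lo (QF h) X < c1 / Real.log X)).card : ℝ) +
      (((Icc 1 T).filter (fun h : ℕ => ¬ lo (QF h) X < c1 / Real.log X)).card : ℝ) = T := by
      exact_mod_cast h6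
    linarith
  · intro h hh
    rw [mem_filter, mem_Icc] at hh
    refine hW X (((le_max_left _ _).trans (le_max_left _ _)).trans hX) h (not_sq h hh.1.1) ?_
      (not_lt.1 hh.2) Z Y hY hZY
    have h8 : (h : ℝ) ≤ T := by exact_mod_cast hh.1.2
    have h9 : |(((h : ℕ) : ℤ) : ℝ)| = (h : ℝ) := by
      push_cast
      exact abs_of_nonneg (Nat.cast_nonneg _)
    rw [h9]
    linarith

open Classical in
/-- **Almost all windows of length `X ^ κ`.** -/
theorem mostWin (x : ℝ) (B : ℕ) (hx : 0 < x) (κ ε : ℝ) (hκ : 0 < κ) (hκ1 : κ ≤ 73 / 100)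
    (hε : 0 < ε) :
    ∃ c : ℝ, 0 < c ∧ ∃ X0 : ℕ, ∀ X : ℕ, X0 ≤ X → ∀ T : ℕ,
      x * Real.log X ≤ T → (T : ℝ) ≤ Real.log X ^ B →
      (((Icc 1 (2 * X)).filter (fun Z => ¬ c * (X : ℝ) ^ κ ≤
        (((Ioc Z (Z + ⌊(X : ℝ) ^ κ⌋₊)).filter (fun n => c * T / Real.log X ≤ N3 n T)).card : ℝ))).card
          : ℝ) ≤ (X : ℝ) ^ (73 / 50 - κ + ε) := by
  obtain ⟨c1, hc1, T1, hG⟩ := good_h (1 / 2) (by norm_num)
  obtain ⟨δ, hδ, X1, hW⟩ := finN B c1 hc1 κ (ε / 2) hκ hκ1 (by linarith)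
  obtain ⟨c, hc, X2, hA⟩ := assemble (κ / 2) x δ (by linarith) hx hδ
  have hlog : Tendsto (fun X : ℕ => Real.log X) atTop atTop :=
    Real.tendsto_log_atTop.comp tendsto_natCast_atTop_atTop
  have ev2 : ∀ᶠ Y : ℕ in atTop, (2 : ℝ) ≤ (Y : ℝ) ^ (κ / 2) :=
    ((tendsto_rpow_atTop (by linarith)).comp tendsto_natCast_atTop_atTop).eventually_ge_atTop _
  obtain ⟨X3, h3⟩ := eventually_atTop.1 ((hlog.eventually_ge_atTop ((T1 : ℝ) / x)).and
    (ev2.and ((evlog B 0 (ε / 2) (by linarith)).and (eventually_ge_atTop 3))))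
  refine ⟨c / 2, by positivity, max (max X1 X2) X3, ?_⟩
  intro X hX T hT hTB
  obtain ⟨e1, e2, e3, e4⟩ := h3 X ((le_max_right _ _).trans hX)
  have hXr : (3 : ℝ) ≤ X := by exact_mod_cast e4
  have hX0 : (0 : ℝ) < X := by linarith
  have hX1 : (1 : ℝ) ≤ X := by linarith
  have hlX : 0 < Real.log X := Real.log_pos (by linarith)
  have hTT : T1 ≤ T := by
    have h5 : (T1 : ℝ) ≤ T := by
      rw [div_le_iff₀ hx] at e1
      linarith
    exact_mod_cast h5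
  have hbad := hG T hTT X (by omega)
  obtain ⟨H, hH⟩ : ∃ H : ℕ, H = ⌊(X : ℝ) ^ κ⌋₊ := ⟨_, rfl⟩
  rw [← hH]
  have hHle : (H : ℝ) ≤ (X : ℝ) ^ κ := by rw [hH]; exact Nat.floor_le (by positivity)
  have hsplit : (X : ℝ) ^ κ = (X : ℝ) ^ (κ / 2) * (X : ℝ) ^ (κ / 2) := by
    rw [← Real.rpow_add hX0]
    congr 1
    ring
  have hbig : 4 ≤ (X : ℝ) ^ κ := by
    rw [hsplit]
    nlinarith
  have hHge : (X : ℝ) ^ κ / 2 ≤ H := by
    have := Nat.lt_floor_add_one ((X : ℝ) ^ κ)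
    rw [← hH] at this
    linarith
  have hHθ : (X : ℝ) ^ (κ / 2) ≤ H := by
    refine le_trans ?_ hHge
    rw [hsplit]
    nlinarith
  have hHX : H ≤ X := by
    have : (H : ℝ) ≤ X := by
      refine hHle.trans ?_
      calc (X : ℝ) ^ κ ≤ (X : ℝ) ^ (1 : ℝ) := Real.rpow_le_rpow_of_exponent_le hX1 (by linarith)
        _ = X := Real.rpow_one _
    exact_mod_cast this
  set G := (Icc 1 T).filter (fun h : ℕ => ¬ lo (QF h) X < c1 / Real.log X) with hGdef
  have hGc : (T : ℝ) / 2 ≤ G.card := by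
    have h6 := card_filter_add_card_filter_not (s := Icc 1 T)
      (fun h : ℕ => lo (QF h) X < c1 / Real.log X)
    rw [Nat.card_Icc, Nat.add_sub_cancel] at h6
    have h7 : (((Icc 1 T).filter (fun h : ℕ => lo (QF h) X < c1 / Real.log X)).card : ℝ) +
      (((Icc 1 T).filter (fun h : ℕ => ¬ lo (QF h) X < c1 / Real.log X)).card : ℝ) = T := by
      exact_mod_cast h6
    linarith
  have hE : ∀ h ∈ G, (((Icc 1 (2 * X)).filter (fun N => ((gset (h : ℤ) 3 ((X : ℝ) ^ (73 / 400 : ℝ)) N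
        H).card : ℝ) < δ * (X : ℝ) ^ κ / Real.log X)).card : ℝ) ≤
      (X : ℝ) ^ (73 / 50 - κ + ε / 2) := by
    intro h hh
    rw [hGdef, mem_filter, mem_Icc] at hh
    have h8 : (h : ℝ) ≤ T := by exact_mod_cast hh.1.2
    have h9 : |(((h : ℕ) : ℤ) : ℝ)| = (h : ℝ) := by
      push_cast
      exact abs_of_nonneg (Nat.cast_nonneg _)
    have h10 := hW X (((le_max_left _ _).trans (le_max_left _ _)).trans hX) h (not_sq h hh.1.1)
      (by rw [h9]; linarith) (not_lt.1 hh.2)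
    rw [← hH] at h10
    exact h10
  have hsub : (Icc 1 (2 * X)).filter (fun Z => ¬ c / 2 * (X : ℝ) ^ κ ≤
        (((Ioc Z (Z + H)).filter (fun n => c / 2 * T / Real.log X ≤ N3 n T)).card : ℝ)) ⊆
      G.biUnion (fun h => (Icc 1 (2 * X)).filter (fun N => ((gset (h : ℤ) 3
        ((X : ℝ) ^ (73 / 400 : ℝ)) N H).card : ℝ) < δ * (X : ℝ) ^ κ / Real.log X)) := by
    intro Z hZ
    rw [mem_filter] at hZ
    by_contra hcon
    rw [mem_biUnion] at hcon
    push Not at hcon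
    apply hZ.2
    have hZ2 := (mem_Icc.1 hZ.1).2
    have h11 := hA X (((le_max_right _ _).trans (le_max_left _ _)).trans hX) Z H T hHθ (by omega) hT
      G (filter_subset _ _) hGc (by
        intro h hh
        have h12 := hcon h hh
        rw [mem_filter] at h12
        push Not at h12
        refine le_trans ?_ (h12 hZ.1)
        gcongr)
    calc c / 2 * (X : ℝ) ^ κ = c * ((X : ℝ) ^ κ / 2) := by ring
      _ ≤ c * H := mul_le_mul_of_nonneg_left hHge hc.le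
      _ ≤ _ := h11
      _ ≤ _ := by
          apply Nat.cast_le.2
          apply card_le_card
          intro n hn
          rw [mem_filter] at hn ⊢
          refine ⟨hn.1, le_trans ?_ hn.2⟩
          have hT0 : (0 : ℝ) ≤ T := Nat.cast_nonneg _
          apply div_le_div_of_nonneg_right _ hlX.le
          nlinarith
  calc _ ≤ ((G.biUnion (fun h => (Icc 1 (2 * X)).filter (fun N => ((gset (h : ℤ) 3
        ((X : ℝ) ^ (73 / 400 : ℝ)) N H).card : ℝ) < δ * (X : ℝ) ^ κ / Real.log X))).card : ℝ) := by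
        exact_mod_cast card_le_card hsub
    _ ≤ ∑ h ∈ G, (((Icc 1 (2 * X)).filter (fun N => ((gset (h : ℤ) 3
        ((X : ℝ) ^ (73 / 400 : ℝ)) N H).card : ℝ) < δ * (X : ℝ) ^ κ / Real.log X)).card : ℝ) := by
        exact_mod_cast card_biUnion_le
    _ ≤ ∑ h ∈ G, (X : ℝ) ^ (73 / 50 - κ + ε / 2) := sum_le_sum hE
    _ = G.card * (X : ℝ) ^ (73 / 50 - κ + ε / 2) := by rw [sum_const, nsmul_eq_mul]
    _ ≤ (X : ℝ) ^ (ε / 2) * (X : ℝ) ^ (73 / 50 - κ + ε / 2) := by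
        apply mul_le_mul_of_nonneg_right _ (by positivity)
        have h12 : (G.card : ℝ) ≤ T := by
          have : G.card ≤ T := by
            have := card_filter_le (Icc 1 T) (fun h : ℕ => ¬ lo (QF h) X < c1 / Real.log X)
            simpa [hGdef] using this
          exact_mod_cast this
        linarith
    _ = _ := by
        rw [← Real.rpow_add hX0]
        congr 1
        ring

end Pool.Agent.K1H50.SQ3
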